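import Pool.Agent.H29.R2.Targets2
import Pool.Agent.H60.R2.GF

/-!
# (EQA) families of Artin `L`-functions with equal densities
-/

set_option autoImplicit false

open Complex MeasureTheory Set Filter Topology

namespace Pool.Agent.H85.R2

open Pool.Agent.H29.R2 Pool.Agent.H28.RC Pool.Agent.H25.HK Pool.Agent.H25
open Pool.Agent.H29.RT Pool.Agent.H29.RS Pool.Agent.H25.DL Pool.Agent.H25.DP Pool.Agent.H25.MZ
open Pool.Agent.H23.GLH Pool.Agent.H48.DL Pool.Agent.H60.R2

/-- (EQA) -/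
theorem pf_EQA (h1 : Pool.Agent.H25.MZ.T_FI0) (h2 : T_NSA) (h3 : T_ALL) : T_EQA := by
  classical
  intro k R Λ a τ c μ hR hμ ha hnd hd
  choose L hLn hh hL using fun i => h3 (R.rep i) (Λ i) (hR i)
  have hL : ∀ i, Agrees (L i) (Λ i) := fun i => hL i
  let F : Fam :=
    { I := Σ i : Fin k, Fin (c i).toNat
      J := Σ i : Fin k, Fin (-c i).toNat
      fI := inferInstance
      fJ := inferInstance
      p := fun x => ⟨L x.1, a x.1, τ x.1, hμ.trans_le (ha x.1)⟩
      q := fun x => ⟨L x.1, a x.1, τ x.1, hμ.trans_le (ha x.1)⟩ }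
  have hFd : F.d = 0 := by
    rw [← hd]
    change ∑ x : (Σ i : Fin k, Fin (c i).toNat), a x.1 * ((L x.1).n : ℝ) -
      ∑ x : (Σ i : Fin k, Fin (-c i).toNat), a x.1 * ((L x.1).n : ℝ) = _
    rw [sum_sigma_fin (fun i => (c i).toNat) (fun i => a i * ((L i).n : ℝ)),
      sum_sigma_fin (fun i => (-c i).toNat) (fun i => a i * ((L i).n : ℝ)),
      ← Finset.sum_sub_distrib]
    refine Finset.sum_congr rfl fun i _ => ?_
    rw [hLn, nsmul_eq_mul, nsmul_eq_mul, ← sub_mul, GF_toNatR]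
    ring
  have hFr : ∀ l, μ ≤ (F.f l).r := by
    rintro (x | x)
    · exact ha x.1.1
    · exact ha x.1.1
  -- the coefficients at the primes
  have hpm : ∀ p : ℕ, p.Prime →
      pm F.f μ p = cb a τ c (fun i p => ∑ l, (L i).h l p) μ p := by
    intro p hp
    rw [pm_fam F μ hp]
    change ∑ x : (Σ i : Fin k, Fin (c i).toNat), (if a x.1 = μ then
        (∑ l, (L x.1).h l p) * (p : ℂ) ^ (-(τ x.1 * I) : ℂ) else 0) -
      ∑ x : (Σ i : Fin k, Fin (-c i).toNat), (if a x.1 = μ then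
        (∑ l, (L x.1).h l p) * (p : ℂ) ^ (-(τ x.1 * I) : ℂ) else 0) = _
    rw [sum_sigma_fin (fun i => (c i).toNat) (fun i => if a i = μ then
        (∑ l, (L i).h l p) * (p : ℂ) ^ (-(τ i * I) : ℂ) else 0),
      sum_sigma_fin (fun i => (-c i).toNat) (fun i => if a i = μ then
        (∑ l, (L i).h l p) * (p : ℂ) ^ (-(τ i * I) : ℂ) else 0), ← Finset.sum_sub_distrib]
    unfold cb
    refine Finset.sum_congr rfl fun i _ => ?_
    by_cases hv : a i = μ
    · rw [if_pos hv, if_pos hv, nsmul_eq_mul, nsmul_eq_mul, ← sub_mul, GF_toNatC]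
      ring
    · rw [if_neg hv, if_neg hv, nsmul_zero, nsmul_zero, sub_zero]
  have hTr : R.Tr (fun i p => ∑ l, (L i).h l p) := by
    intro i p
    have h6 := hh i p 1 le_rfl
    simp only [pow_one] at h6
    exact h6
  have hns := h2 k R a τ c (fun i p => ∑ l, (L i).h l p) μ hTr hnd
  obtain ⟨δ, T₀, hδ, h⟩ := h1 F μ {p : ℕ | p.Prime ∧
    cb a τ c (fun i p => ∑ l, (L i).h l p) μ p ≠ 0} hFd hμ hFr (fun p hp => ⟨hp.1, by
      rw [hpm p hp.1]
      exact hp.2⟩) hns
  obtain ⟨T₁, hT₁⟩ := exists_height a τ μ hμ ha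
  refine ⟨δ, max (max T₀ 0) T₁, hδ, fun T W hT hW hWT => ?_⟩
  have hT0 : 0 ≤ T := ((le_max_right _ _).trans (le_max_left _ _)).trans hT
  obtain ⟨Z, hZ, hz⟩ := h T W (((le_max_left _ _).trans (le_max_left _ _)).trans hT) hW hWT
  refine ⟨Z, hZ, fun z hzZ => ?_⟩
  obtain ⟨h1', h2', h3'⟩ := hz z hzZ
  have h1q : T / 4 ≤ z.im := by linarith
  refine ⟨h1', h2', ?_⟩
  have hp : ∀ i, 0 < (wl (a i) (τ i) z).im :=
    hT₁ T ((le_max_right _ _).trans hT) z h1q
  have hN := order_N F z (fun x => hp x.1) (fun x => hp x.1)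
  have hM := order_M F z (fun x => hp x.1) (fun x => hp x.1)
  choose u b hab1 hab2 hab3 using fun i => nat_orders (hL i) (hp i)
  have hN' : analyticOrderAt F.N z =
      ((∑ i, (c i).toNat * u i + ∑ i, (-c i).toNat * b i : ℕ) : ℕ∞) := by
    rw [hN]
    change (∑ x : (Σ i : Fin k, Fin (c i).toNat), analyticOrderAt (L x.1).num
        (wl (a x.1) (τ x.1) z)) + ∑ x : (Σ i : Fin k, Fin (-c i).toNat),
        analyticOrderAt (L x.1).den (wl (a x.1) (τ x.1) z) = _
    rw [sum_sigma_fin (fun i => (c i).toNat)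
        (fun i => analyticOrderAt (L i).num (wl (a i) (τ i) z)),
      sum_sigma_fin (fun i => (-c i).toNat)
        (fun i => analyticOrderAt (L i).den (wl (a i) (τ i) z))]
    simp only [hab1, hab2, nsmul_eq_mul]
    push_cast
    rfl
  have hM' : analyticOrderAt F.M z =
      ((∑ i, (c i).toNat * b i + ∑ i, (-c i).toNat * u i : ℕ) : ℕ∞) := by
    rw [hM]
    change (∑ x : (Σ i : Fin k, Fin (c i).toNat), analyticOrderAt (L x.1).den
        (wl (a x.1) (τ x.1) z)) + ∑ x : (Σ i : Fin k, Fin (-c i).toNat),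
        analyticOrderAt (L x.1).num (wl (a x.1) (τ x.1) z) = _
    rw [sum_sigma_fin (fun i => (c i).toNat)
        (fun i => analyticOrderAt (L i).den (wl (a i) (τ i) z)),
      sum_sigma_fin (fun i => (-c i).toNat)
        (fun i => analyticOrderAt (L i).num (wl (a i) (τ i) z))]
    simp only [hab1, hab2, nsmul_eq_mul]
    push_cast
    rfl
  have h4 : analyticOrderAt F.N z < analyticOrderAt F.M z := h3'
  rw [hN', hM', ENat.natCast_lt_natCast] at h4
  have hord : ∀ i, (meromorphicOrderAt (Λ i)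
      (1 / 2 + (a i : ℂ) * (z - 1 / 2) + τ i * I)).untop₀ = (u i : ℤ) - (b i : ℤ) := by
    intro i
    have e : (1 / 2 + (a i : ℂ) * (z - 1 / 2) + τ i * I : ℂ) = wl (a i) (τ i) z := by
      unfold wl
      push_cast
      ring
    rw [e, hab3 i, WithTop.untop₀_coe]
  simp only [hord]
  have key : ∀ i, ((c i).toNat : ℤ) * u i + ((-c i).toNat : ℤ) * b i =
      ((c i).toNat : ℤ) * b i + ((-c i).toNat : ℤ) * u i + c i * ((u i : ℤ) - (b i : ℤ)) := by
    intro i
    rcases le_total 0 (c i) with h4 | h4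
    · rw [Int.toNat_of_nonneg h4, Int.toNat_of_nonpos (by omega)]
      push_cast
      ring
    · rw [Int.toNat_of_nonneg (by omega : 0 ≤ -c i), Int.toNat_of_nonpos h4]
      push_cast
      ring
  have h5 : (∑ i, ((c i).toNat : ℤ) * u i + ∑ i, ((-c i).toNat : ℤ) * b i) <
      (∑ i, ((c i).toNat : ℤ) * b i + ∑ i, ((-c i).toNat : ℤ) * u i) := by
    exact_mod_cast h4
  have h6 : (∑ i, ((c i).toNat : ℤ) * u i + ∑ i, ((-c i).toNat : ℤ) * b i) =
      (∑ i, ((c i).toNat : ℤ) * b i + ∑ i, ((-c i).toNat : ℤ) * u i) +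
        ∑ i, c i * ((u i : ℤ) - (b i : ℤ)) := by
    rw [← Finset.sum_add_distrib, ← Finset.sum_add_distrib, ← Finset.sum_add_distrib]
    exact Finset.sum_congr rfl fun i _ => key i
  linarith

end Pool.Agent.H85.R2
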