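import Pool.Agent.H29.R2.Targets
import Pool.Agent.H12.RC.H1

/-!
# L-functions of ray class characters: continuation to `Re s > 0` (module CNT)
-/

set_option autoImplicit false

open NumberField NumberField.InfinitePlace NumberField.Units
  NumberField.Units.dirichletUnitTheorem MeasureTheory Set Filter Complex
open scoped nonZeroDivisors ENNReal

namespace Pool.Agent.H85.R2

open Pool.Agent.H28.RC Pool.Agent.H25.HK Pool.Agent.H25 Pool.Agent.H29.R2
open Pool.Agent.H12.RC (coe_ne gS_inv_differentiable gS_ne_of_re sum_zero)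

open scoped Classical in
theorem pf_CNT (hWP : T_WPc) (hME : T_MEc) (hCS : T_CSc) (hEP : T_EPc) (hDU : T_DU)
    (hCW : T_CW) (hCM : T_CM) (hCP : T_CP) (hID : T_ID) : T_CNT := by
  intro K _ _ χ
  obtain ⟨W, hW⟩ := hCW K χ
  obtain ⟨ι, hι, M, hM0, hM1, hM2⟩ := hCS K χ.f χ.f_ne
  choose P hPf hPg hPk hPε hPf0 hPg0 using fun c => hWP K χ W (M c) hW (hM0 c)
  obtain ⟨c0, hc0⟩ : ∃ c0 : ℂ, c0 = (torsionOrder K : ℂ) *
    ((2 : ℂ) ^ (nrRealPlaces K + nrComplexPlaces K))⁻¹ := ⟨_, rfl⟩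
  have hc0' : c0 ≠ 0 := by
    rw [hc0]
    have h1 : (torsionOrder K : ℂ) ≠ 0 := by
      exact_mod_cast (torsionOrder_pos K).ne'
    exact mul_ne_zero h1 (inv_ne_zero (pow_ne_zero _ two_ne_zero))
  obtain ⟨N, hN⟩ : ∃ N : ι → ℝ, N = fun c => (FractionalIdeal.absNorm (M c) : ℝ) := ⟨_, rfl⟩
  have hN0 : ∀ c, 0 < N c := fun c => by rw [hN]; exact (hDU K (M c) (hM0 c)).2.2.2.1
  have hfM : ∀ c, (χ.f : FI K) * M c ≠ 0 := fun c => mul_ne_zero (coe_ne χ.f_ne) (hM0 c)
  have hM' : ∀ c, du' χ (M c) ≠ 0 := fun c => (hDU K _ (hfM c)).1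
  -- the Mellin transforms
  have hΛ : ∀ c (s : ℂ), 1 < s.re → (P c).Λ s = c0 * gS χ s * ((N c : ℝ) : ℂ) ^ (-s) *
      ∑' I : {I : Ideal (𝓞 K) // Pri K (M c) I}, χ.ψ I.1 * (Ideal.absNorm I.1 : ℂ) ^ (-s) := by
    intro c s hs
    have h1 := ((P c).hasMellin (s := s) (by rw [hPk]; exact hs)).2
    rw [← h1]
    have h2 : (fun x => (P c).f x - (P c).f₀) = fun t => ffc χ (M c) t - k0 χ (M c) := by
      funext t
      rw [hPf, hPf0]
    rw [h2, hME K χ (M c) (hM0 c) s hs, hc0, hN]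
  have hcancel : ∀ (x : ℝ) (s : ℂ), 0 < x → ((x : ℝ) : ℂ) ^ s * ((x : ℝ) : ℂ) ^ (-s) = 1 := by
    intro x s hx
    rw [← cpow_add _ _ (by exact_mod_cast hx.ne'), add_neg_cancel, cpow_zero]
  have hsum : ∀ s : ℂ, 1 < s.re → ∑ c, ((N c : ℝ) : ℂ) ^ s * (P c).Λ s =
      c0 * gS χ s * Lc χ s := by
    intro s hs
    have h1 := (hEP K χ).1 s hs
    unfold Lc
    rw [← sum_partition (fun I : Ideal (𝓞 K) => I ≠ ⊥) (fun c I => Pri K (M c) I)
      (fun c I h => h.1) hM1 (fun I => χ.ψ I * (Ideal.absNorm I : ℂ) ^ (-s)) h1, Finset.mul_sum]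
    refine Finset.sum_congr rfl fun c _ => ?_
    rw [hΛ c s hs]
    have h3 := hcancel (N c) s (hN0 c)
    calc ((N c : ℝ) : ℂ) ^ s * (c0 * gS χ s * ((N c : ℝ) : ℂ) ^ (-s) *
          ∑' I : {I : Ideal (𝓞 K) // Pri K (M c) I}, χ.ψ I.1 * (Ideal.absNorm I.1 : ℂ) ^ (-s))
        = (((N c : ℝ) : ℂ) ^ s * ((N c : ℝ) : ℂ) ^ (-s)) * (c0 * gS χ s *
          ∑' I : {I : Ideal (𝓞 K) // Pri K (M c) I},
            χ.ψ I.1 * (Ideal.absNorm I.1 : ℂ) ^ (-s)) := by ring
      _ = _ := by rw [h3, one_mul]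
  -- the singular part
  obtain ⟨F, hF⟩ : ∃ F : ℂ → ℂ, F = fun s => ∑ c, ((N c : ℝ) : ℂ) ^ s * ((P c).ε * (P c).g₀) :=
    ⟨_, rfl⟩
  have hFd : Differentiable ℂ F := by
    rw [hF]
    intro s
    refine DifferentiableAt.fun_sum fun c _ => ?_
    have h1 : DifferentiableAt ℂ (fun s : ℂ => ((N c : ℝ) : ℂ) ^ s) s :=
      (differentiableAt_id).const_cpow (Or.inl (by exact_mod_cast (hN0 c).ne'))
    exact h1.mul_const _
  have hF1 : (∃ I : Ideal (𝓞 K), χ.ψ I ≠ 0 ∧ χ.ψ I ≠ 1) → F 1 = 0 := by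
    rintro ⟨I₀, h0, h1⟩
    rw [hF]
    simp only
    by_cases hS : χ.S = ∅
    · by_cases hf : χ.f = ⊤
      · have hbS : χ.bar.S = ∅ := hS
        have hbf : χ.bar.f = ⊤ := hf
        have hz := sum_zero hCP hID χ.bar hbS hbf (I₀ := I₀)
          (by
            intro h
            exact h0 ((map_eq_zero (starRingEnd ℂ)).1 h))
          (by
            intro h
            apply h1
            have h2 := congrArg (starRingEnd ℂ) (show (starRingEnd ℂ) (χ.ψ I₀) = 1 from h)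
            rwa [Complex.conj_conj, map_one] at h2)
          (fun c => du' χ (M c)) hM' hM2
        obtain ⟨D, hD⟩ : ∃ D : ℂ, D = ((Real.sqrt |(discr K : ℝ)|)⁻¹ : ℝ) *
          ((-I) ^ χ.S.card * W) * ((volume.real (Fd K) : ℝ) : ℂ) := ⟨_, rfl⟩
        have h2 : ∀ c ∈ (Finset.univ : Finset ι), ((N c : ℝ) : ℂ) ^ (1 : ℂ) *
            ((P c).ε * (P c).g₀) = D * cf χ.bar (du' χ (M c)) 0 := by
          intro c _
          have h3 : (P c).g₀ = cf χ.bar (du' χ (M c)) 0 * ((volume.real (Fd K) : ℝ) : ℂ) := by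
            rw [hPg0]
            unfold k0
            rw [if_pos hbS]
          have h4 : (χ.f : FI K) * M c = M c := by
            rw [hf]
            simp only [FractionalIdeal.coeIdeal_top, one_mul]
          rw [h3, hPε, h4, cpow_one, hD]
          unfold cv
          have h5 : (FractionalIdeal.absNorm (M c) : ℝ) = N c := by rw [hN]
          rw [h5]
          have h6 : ((N c : ℝ) : ℂ) ≠ 0 := by exact_mod_cast (hN0 c).ne'
          push_cast
          field_simp
        rw [Finset.sum_congr rfl h2, ← Finset.mul_sum, hz, mul_zero]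
      · refine Finset.sum_eq_zero fun c _ => ?_
        have h3 : (P c).g₀ = 0 := by
          rw [hPg0]
          unfold k0
          rw [(hCM K χ.bar (du' χ (M c)) (hM' c)).2.2.2.2.2.1 hf, zero_mul, ite_self]
        rw [h3, mul_zero, mul_zero]
    · refine Finset.sum_eq_zero fun c _ => ?_
      have h3 : (P c).g₀ = 0 := by
        rw [hPg0]
        unfold k0
        exact if_neg hS
      rw [h3, mul_zero, mul_zero]
  -- the regular function
  have hN' : ∀ c, Differentiable ℂ (fun s : ℂ => ((N c : ℝ) : ℂ) ^ s) := fun c s =>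
    (differentiableAt_id).const_cpow (Or.inl (by exact_mod_cast (hN0 c).ne'))
  refine ⟨fun s => c0⁻¹ * (gS χ s)⁻¹ *
    ((s - 1) * (∑ c, ((N c : ℝ) : ℂ) ^ s * ((P c).Λ₀ s - (1 / s) • (P c).f₀)) + F s), ?_, ?_, ?_⟩
  · intro s hs
    have hs0 : s ≠ 0 := by
      rintro rfl
      simp at hs
    refine DifferentiableAt.mul (DifferentiableAt.mul (differentiableAt_const _)
      (gS_inv_differentiable χ s)) (DifferentiableAt.add (DifferentiableAt.mul
        (differentiableAt_id.sub_const 1) ?_) (hFd s))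
    refine DifferentiableAt.fun_sum fun c _ => ?_
    refine DifferentiableAt.mul (hN' c s) (DifferentiableAt.sub ((P c).differentiable_Λ₀ s) ?_)
    exact ((differentiableAt_const _).div differentiableAt_id hs0).smul_const _
  · intro s hs
    have hs1 : s ≠ 1 := by
      rintro rfl
      simp at hs
    have h7 : (1 : ℂ) - s ≠ 0 := sub_ne_zero.2 (Ne.symm hs1)
    have h2 := hsum s hs
    have h3 : (s - 1) * ∑ c, ((N c : ℝ) : ℂ) ^ s * (P c).Λ s =
        (s - 1) * (∑ c, ((N c : ℝ) : ℂ) ^ s * ((P c).Λ₀ s - (1 / s) • (P c).f₀)) + F s := by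
      rw [hF]
      simp only
      rw [Finset.mul_sum, Finset.mul_sum, ← Finset.sum_add_distrib]
      refine Finset.sum_congr rfl fun c _ => ?_
      have h6 : (P c).Λ s = (P c).Λ₀ s - (1 / s) • (P c).f₀ -
          ((P c).ε / ((P c).k - s)) • (P c).g₀ := rfl
      rw [h6, hPk, smul_eq_mul, smul_eq_mul, ofReal_one]
      have h9 : (s - 1) * ((P c).ε / (1 - s) * (P c).g₀) = -((P c).ε * (P c).g₀) := by
        have h10 : s - 1 = -(1 - s) := by ring
        rw [h10]
        field_simp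
      linear_combination (-((N c : ℝ) : ℂ) ^ s) * h9
    simp only
    rw [← h3, h2]
    have h5 := gS_ne_of_re χ (s := s) (by linarith)
    field_simp
  · intro h
    simp only
    rw [sub_self, zero_mul, hF1 h, add_zero, mul_zero]

end Pool.Agent.H85.R2
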