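import Pool.Agent.H29.R2.Targets
import Pool.Agent.H96.RT.MND

/-!
# (MNG) the mean for a family of Artin characters
-/

set_option autoImplicit false

open NumberField Complex Filter Topology

namespace Pool.Agent.H85.R2

open Pool.Agent.H28.RC Pool.Agent.H25.HK Pool.Agent.H25 Pool.Agent.H29.RT Pool.Agent.H29.RS
open Pool.Agent.H29.R2
open Pool.Agent.H96.RT (summ_diff norm_pit pit_mul)

/-- the average over the trivial subgroup -/
lemma avg_bot (R : DL.ArtinRep) : R.avg ⊥ = 1 := by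
  unfold DL.ArtinRep.avg
  rw [Nat.card_eq_one_iff_unique.2 ⟨inferInstance, inferInstance⟩]
  rw [finsum_eq_single _ (1 : (⊥ : Subgroup (R.K ≃ₐ[ℚ] R.K)))
    (fun g hg => absurd (Subsingleton.elim g 1) hg)]
  simp

/-- the trace of the Frobenius takes finitely many values -/
lemma bdd_trace (R : DL.ArtinRep) : ∃ C : ℝ, 0 ≤ C ∧ ∀ p : Nat.Primes,
    ‖LinearMap.trace ℂ R.V (R.fr p)‖ ≤ C := by
  have : Finite (Subgroup (R.K ≃ₐ[ℚ] R.K)) :=
    Finite.of_injective (fun H : Subgroup (R.K ≃ₐ[ℚ] R.K) => (H : Set (R.K ≃ₐ[ℚ] R.K)))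
      SetLike.coe_injective
  obtain ⟨C, hC⟩ := (Set.finite_range fun q : (R.K ≃ₐ[ℚ] R.K) × Subgroup (R.K ≃ₐ[ℚ] R.K) =>
    ‖LinearMap.trace ℂ R.V (R.rho q.1 * R.avg q.2)‖).bddAbove
  refine ⟨max C 0, le_max_right _ _, fun p => le_trans (hC ⟨(R.Fr p, R.In p), rfl⟩)
    (le_max_left _ _)⟩

lemma chi_class {k : ℕ} (R : GFam k) (i : Fin k) (x g : R.K ≃ₐ[ℚ] R.K) :
    R.chi i (x⁻¹ * g * x) = R.chi i g := by
  unfold GFam.chi
  rw [map_mul, LinearMap.trace_mul_comm, ← map_mul]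
  congr 2
  group

open scoped Classical in
/-- one pair -/
lemma pair (h1 : T_MCF) (h2 : T_FNR) {k : ℕ} (R : GFam k) (X : Fin k → ℕ → ℂ)
    (hX : ∀ i (p : Nat.Primes), X i p = LinearMap.trace ℂ (R.V i) ((R.rep i).fr p))
    (i j : Fin k) (t : ℝ) (s : ℕ) (hs : 1 ≤ s) :
    Tendsto (fun L : ℝ => ∑' p : Nat.Primes, (X i p * (starRingEnd ℂ) (X j p)) *
      ((p : ℕ) : ℂ) ^ (-(t * I) : ℂ) *
        ((((p : ℕ) : ℝ) ^ (-(1 + s / L) : ℝ) - ((p : ℕ) : ℝ) ^ (-(1 + 1 / L) : ℝ) : ℝ) : ℂ)) atTop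
      (𝓝 (if t = 0 then -((∑ᶠ g, R.chi i g * (starRingEnd ℂ) (R.chi j g)) /
        Nat.card (R.K ≃ₐ[ℚ] R.K) * (Real.log s : ℂ)) else 0)) := by
  obtain ⟨Ci, hCi0, hCi⟩ := bdd_trace (R.rep i)
  obtain ⟨Cj, hCj0, hCj⟩ := bdd_trace (R.rep j)
  obtain ⟨B, hB⟩ := h2 (R.rep i)
  refine h1 (R.rep i) (fun g => R.chi i g * (starRingEnd ℂ) (R.chi j g))
    (fun p => X i p * (starRingEnd ℂ) (X j p)) (Ci * Cj) B ?_ ?_ ?_ t s hs
  · intro x g
    exact congrArg₂ (fun u v : ℂ => u * (starRingEnd ℂ) v) (chi_class R i x g)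
      (chi_class R j x g)
  · intro p
    rw [norm_mul, RCLike.norm_conj, hX, hX]
    exact mul_le_mul (hCi p) (hCj p) (norm_nonneg _) hCi0
  · intro p hp
    have hI : (R.rep i).In p = ⊥ := hB p hp
    have hJ : (R.rep j).In p = ⊥ := hI
    have e1 : X i p = R.chi i (R.Fr p) := by
      rw [hX]
      unfold DL.ArtinRep.fr
      rw [hI, avg_bot, mul_one]
      rfl
    have e2 : X j p = R.chi j (R.Fr p) := by
      rw [hX]
      unfold DL.ArtinRep.fr
      rw [hJ, avg_bot, mul_one]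
      rfl
    show X i p * (starRingEnd ℂ) (X j p) =
      R.chi i (R.Fr p) * (starRingEnd ℂ) (R.chi j (R.Fr p))
    rw [e1, e2]

open scoped Classical in
theorem pf_MNG (h1 : T_MCF) (h2 : T_FNR) : T_MNG := by
  intro k R a τ c m v X hm hX s hs
  set b : Fin k → Nat.Primes → ℂ := fun i p => X i p * ((p : ℕ) : ℂ) ^ (-(τ i * I) : ℂ)
    with hb
  set q : Fin k → Fin k → ℂ := fun i j => if a i = v ∧ a j = v then
    ((c i : ℂ) * (c j : ℂ) / (m : ℂ) ^ 2) else 0 with hq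
  have hC : ∃ C : ℝ, 0 ≤ C ∧ ∀ i p, ‖b i p‖ ≤ C := by
    choose C hC0 hC using fun i => bdd_trace (R.rep i)
    refine ⟨∑ i, C i, Finset.sum_nonneg fun i _ => hC0 i, fun i p => ?_⟩
    simp only [hb]
    rw [norm_mul, norm_pit, mul_one, hX]
    exact (hC i p).trans (Finset.single_le_sum (f := C) (fun i _ => hC0 i) (Finset.mem_univ i))
  obtain ⟨C, hC0, hC⟩ := hC
  have hlim : ∀ i j : Fin k, Tendsto (fun L : ℝ => ∑' p : Nat.Primes,
      b i p * (starRingEnd ℂ) (b j p) *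
        ((((p : ℕ) : ℝ) ^ (-(1 + s / L) : ℝ) - ((p : ℕ) : ℝ) ^ (-(1 + 1 / L) : ℝ) : ℝ) : ℂ)) atTop
      (𝓝 (if τ i = τ j then -((∑ᶠ g, R.chi i g * (starRingEnd ℂ) (R.chi j g)) /
        Nat.card (R.K ≃ₐ[ℚ] R.K) * (Real.log s : ℂ)) else 0)) := by
    intro i j
    have h3 := pair h1 h2 R X hX i j (τ i - τ j) s hs
    have e : (if τ i - τ j = 0 then -((∑ᶠ g, R.chi i g * (starRingEnd ℂ) (R.chi j g)) /
        Nat.card (R.K ≃ₐ[ℚ] R.K) * (Real.log s : ℂ)) else 0) =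
        if τ i = τ j then -((∑ᶠ g, R.chi i g * (starRingEnd ℂ) (R.chi j g)) /
        Nat.card (R.K ≃ₐ[ℚ] R.K) * (Real.log s : ℂ)) else 0 := by
      by_cases hij : τ i = τ j
      · rw [if_pos hij, if_pos (sub_eq_zero.2 hij)]
      · rw [if_neg hij, if_neg (sub_ne_zero.2 hij)]
    rw [e] at h3
    refine h3.congr fun L => ?_
    apply tsum_congr
    intro p
    rw [← pit_mul p (τ i) (τ j)]
    simp only [hb, map_mul]
    ring
  have hsum : ∀ L : ℝ, 0 < L → ∀ i j : Fin k, Summable fun p : Nat.Primes =>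
      b i p * (starRingEnd ℂ) (b j p) *
        ((((p : ℕ) : ℝ) ^ (-(1 + s / L) : ℝ) - ((p : ℕ) : ℝ) ^ (-(1 + 1 / L) : ℝ) : ℝ) : ℂ) := by
    intro L hL i j
    refine Summable.of_norm_bounded ((summ_diff s hs L hL).norm.mul_left (C * C)) fun p => ?_
    rw [norm_mul, norm_mul, RCLike.norm_conj, Complex.norm_real]
    exact mul_le_mul_of_nonneg_right (mul_le_mul (hC i p) (hC j p) (norm_nonneg _) hC0)
      (norm_nonneg _)
  -- the sum of the limits
  have h4 : Tendsto (fun L : ℝ => ∑ i, ∑ j, q i j *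
      ∑' p : Nat.Primes, b i p * (starRingEnd ℂ) (b j p) *
        ((((p : ℕ) : ℝ) ^ (-(1 + s / L) : ℝ) - ((p : ℕ) : ℝ) ^ (-(1 + 1 / L) : ℝ) : ℝ) : ℂ)) atTop
      (𝓝 (∑ i, ∑ j, q i j *
        (if τ i = τ j then -((∑ᶠ g, R.chi i g * (starRingEnd ℂ) (R.chi j g)) /
        Nat.card (R.K ≃ₐ[ℚ] R.K) * (Real.log s : ℂ)) else 0))) :=
    tendsto_finsetSum _ fun i _ => tendsto_finsetSum _ fun j _ =>
      (hlim i j).const_mul _
  have h3 := (Complex.continuous_re.tendsto _).comp h4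
  have e2 : (∑ i, ∑ j, q i j *
        (if τ i = τ j then -((∑ᶠ g, R.chi i g * (starRingEnd ℂ) (R.chi j g)) /
        Nat.card (R.K ≃ₐ[ℚ] R.K) * (Real.log s : ℂ)) else 0)).re =
      -(R.en a τ c v / m ^ 2 * Real.log s) := by
    have : Fintype (R.K ≃ₐ[ℚ] R.K) := Fintype.ofFinite _
    unfold GFam.en
    simp only [finsum_eq_sum_of_fintype]
    have e3 : ∀ i j : Fin k, (q i j *
        (if τ i = τ j then -((∑ g, R.chi i g * (starRingEnd ℂ) (R.chi j g)) /
        Nat.card (R.K ≃ₐ[ℚ] R.K) * (Real.log s : ℂ)) else 0)).re =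
        ∑ g, -((if a i = v ∧ a j = v ∧ τ i = τ j then
          (c i : ℝ) * c j * (R.chi i g * (starRingEnd ℂ) (R.chi j g)).re else 0) /
            Nat.card (R.K ≃ₐ[ℚ] R.K) / m ^ 2 * Real.log s) := by
      intro i j
      simp only [hq]
      by_cases hv : a i = v ∧ a j = v
      · by_cases ht : τ i = τ j
        · rw [if_pos hv, if_pos ht]
          simp only [hv.1, hv.2, ht, if_true, and_self]
          have e4 : ((c i : ℂ) * (c j : ℂ) / (m : ℂ) ^ 2) *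
              -((∑ g, R.chi i g * (starRingEnd ℂ) (R.chi j g)) /
              Nat.card (R.K ≃ₐ[ℚ] R.K) * (Real.log s : ℂ)) =
              (((-((c i : ℝ) * (c j : ℝ) / (m : ℝ) ^ 2 / Nat.card (R.K ≃ₐ[ℚ] R.K) *
                Real.log s) : ℝ)) : ℂ) * ∑ g, R.chi i g * (starRingEnd ℂ) (R.chi j g) := by
            push_cast
            ring
          rw [e4, Complex.re_ofReal_mul, Complex.re_sum, Finset.mul_sum]
          refine Finset.sum_congr rfl fun g _ => ?_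
          ring
        · rw [if_neg ht, mul_zero, Complex.zero_re]
          symm
          refine Finset.sum_eq_zero fun g _ => ?_
          rw [if_neg (fun h => ht h.2.2)]
          simp
      · rw [if_neg hv, zero_mul, Complex.zero_re]
        symm
        refine Finset.sum_eq_zero fun g _ => ?_
        rw [if_neg (fun h => hv ⟨h.1, h.2.1⟩)]
        simp
    rw [Complex.re_sum]
    simp only [Complex.re_sum, e3]
    rw [Finset.sum_div, Finset.sum_div, Finset.sum_mul, ← Finset.sum_neg_distrib]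
    have e5 : ∀ i : Fin k, ∑ j, ∑ g, -((if a i = v ∧ a j = v ∧ τ i = τ j then
          (c i : ℝ) * c j * (R.chi i g * (starRingEnd ℂ) (R.chi j g)).re else 0) /
            Nat.card (R.K ≃ₐ[ℚ] R.K) / m ^ 2 * Real.log s) =
        ∑ g, ∑ j, -((if a i = v ∧ a j = v ∧ τ i = τ j then
          (c i : ℝ) * c j * (R.chi i g * (starRingEnd ℂ) (R.chi j g)).re else 0) /
            Nat.card (R.K ≃ₐ[ℚ] R.K) / m ^ 2 * Real.log s) := fun i => Finset.sum_comm
    rw [Finset.sum_congr rfl fun i _ => e5 i, Finset.sum_comm]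
    refine Finset.sum_congr rfl fun g _ => ?_
    rw [Finset.sum_div, Finset.sum_div, Finset.sum_mul, ← Finset.sum_neg_distrib]
    refine Finset.sum_congr rfl fun i _ => ?_
    rw [Finset.sum_div, Finset.sum_div, Finset.sum_mul, ← Finset.sum_neg_distrib]
  rw [e2] at h3
  refine h3.congr' ?_
  filter_upwards [eventually_gt_atTop 0] with L hL
  simp only [Function.comp]
  -- exchange
  have e3 : (∑ i, ∑ j, q i j *
      ∑' p : Nat.Primes, b i p * (starRingEnd ℂ) (b j p) *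
        ((((p : ℕ) : ℝ) ^ (-(1 + s / L) : ℝ) - ((p : ℕ) : ℝ) ^ (-(1 + 1 / L) : ℝ) : ℝ) : ℂ)) =
      ∑' p : Nat.Primes, ∑ i, ∑ j, q i j *
        (b i p * (starRingEnd ℂ) (b j p) *
        ((((p : ℕ) : ℝ) ^ (-(1 + s / L) : ℝ) - ((p : ℕ) : ℝ) ^ (-(1 + 1 / L) : ℝ) : ℝ) : ℂ)) := by
    have hs1 : ∀ i j : Fin k, Summable fun p : Nat.Primes => q i j *
        (b i p * (starRingEnd ℂ) (b j p) *
        ((((p : ℕ) : ℝ) ^ (-(1 + s / L) : ℝ) - ((p : ℕ) : ℝ) ^ (-(1 + 1 / L) : ℝ) : ℝ) : ℂ)) :=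
      fun i j => (hsum L hL i j).mul_left _
    have hs2 : ∀ i : Fin k, Summable fun p : Nat.Primes =>
        ∑ j, q i j *
        (b i p * (starRingEnd ℂ) (b j p) *
        ((((p : ℕ) : ℝ) ^ (-(1 + s / L) : ℝ) - ((p : ℕ) : ℝ) ^ (-(1 + 1 / L) : ℝ) : ℝ) : ℂ)) :=
      fun i => summable_sum fun j _ => hs1 i j
    rw [Summable.tsum_finsetSum fun i _ => hs2 i]
    apply Finset.sum_congr rfl
    intro i _
    rw [Summable.tsum_finsetSum fun j _ => hs1 i j]
    apply Finset.sum_congr rfl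
    intro j _
    rw [tsum_mul_left]
  rw [e3]
  have e4 : ∀ p : Nat.Primes, (∑ i, ∑ j, q i j *
        (b i p * (starRingEnd ℂ) (b j p) *
        ((((p : ℕ) : ℝ) ^ (-(1 + s / L) : ℝ) - ((p : ℕ) : ℝ) ^ (-(1 + 1 / L) : ℝ) : ℝ) : ℂ))) =
      ((‖(∑ i, if a i = v then (c i : ℂ) * X i p * ((p : ℕ) : ℂ) ^ (-(τ i * I) : ℂ) else 0) /
        m‖ ^ 2 *
        (((p : ℕ) : ℝ) ^ (-(1 + s / L) : ℝ) - ((p : ℕ) : ℝ) ^ (-(1 + 1 / L) : ℝ)) : ℝ) : ℂ) := by
    intro p
    set w : ℝ := ((p : ℕ) : ℝ) ^ (-(1 + s / L) : ℝ) - ((p : ℕ) : ℝ) ^ (-(1 + 1 / L) : ℝ) with hw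
    have e5 : (∑ i, if a i = v then (c i : ℂ) * X i p * ((p : ℕ) : ℂ) ^ (-(τ i * I) : ℂ) else 0) =
        ∑ i, (if a i = v then (c i : ℂ) else 0) * b i p := by
      apply Finset.sum_congr rfl
      intro i _
      simp only [hb]
      split_ifs
      · ring
      · ring
    rw [e5, Complex.ofReal_mul, ← Complex.normSq_eq_norm_sq, ← Complex.mul_conj, map_div₀, map_sum]
    simp only [map_mul, map_natCast]
    rw [div_mul_div_comm, Finset.sum_mul_sum, Finset.sum_div, Finset.sum_mul]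
    apply Finset.sum_congr rfl
    intro i _
    rw [Finset.sum_div, Finset.sum_mul]
    apply Finset.sum_congr rfl
    intro j _
    simp only [hq]
    by_cases hi : a i = v
    · by_cases hj : a j = v
      · simp only [hi, hj, and_self, if_true, map_intCast]
        ring
      · simp [hi, hj]
    · simp [hi]
  rw [tsum_congr e4, ← Complex.ofReal_tsum, Complex.ofReal_re]

end Pool.Agent.H85.R2
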